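import Pool.Agent.Lib.MP_23961f_co.AC.Stress

/-!
Certificates: after shifts along edges, a cover or a weighted acyclic colouring of the complement.
Main theorem `gcc_of_cert`.
-/

set_option autoImplicit false

namespace Pool.Agent.Lib.MP_23961f_co.AC

open Pool.Agent.Lib.MP_23961f_co.K

section

variable {V : Type*} [Fintype V]

/-- Covers and weighted acyclic colourings after shifts along edges. -/
inductive Cert (a : ℕ) : SimpleGraph V → Prop
  | cov (G : SimpleGraph V) (h : Cov G a) : Cert a G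
  | col (G : SimpleGraph V) {m : ℕ} (c : V → Fin m) (d : Fin m → ℕ) (h : WAC Gᶜ c d)
      (hd : a + 1 + ∑ r, d r ≤ Fintype.card V) : Cert a G
  | shift (G : SimpleGraph V) (z z' : V) (h : G.Adj z z') (h' : Cert a (esh G z z')) : Cert a G

theorem rep_of_cert {G : SimpleGraph V} {a : ℕ} (h : Cert a G) :
    ∃ k, a + 1 + k ≤ Fintype.card V ∧ Rep Gᶜ.Adj k := by
  induction h with
  | cov G h =>
    refine ⟨_, ?_, rep_of_kill _ _ (kill_of_cov h)⟩
    obtain ⟨S, D, haS, -⟩ := h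
    have h1 := Finset.card_le_univ S
    omega
  | col G c d h hd => exact ⟨_, hd, rep_of_wac h⟩
  | shift G z z' h h' ih =>
    obtain ⟨k, hk, hr⟩ := ih
    exact ⟨k, hk, rep_of_esh h hr⟩

theorem nul_of_cert {G : SimpleGraph V} {a : ℕ} (h : Cert a G) : Nul G a := by
  obtain ⟨k, hk, hr⟩ := rep_of_cert h
  obtain ⟨A, hA1, hA2, hA3, hA4⟩ := exists_matrix_of_rep Gᶜ hr
  rw [compl_compl] at hA2 hA3
  exact ⟨A, hA1, hA2, hA3, by omega⟩

end

/-- Positive semidefinite matrices with the strong Arnold property for a graph and its complement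
from certificates. -/
theorem gcc_of_cert {n : ℕ} (G : SimpleGraph (Fin n)) (a b : ℕ) (ha : Cert a G) (hb : Cert b Gᶜ) :
    ∃ (A B : Matrix (Fin n) (Fin n) ℝ),
      A.PosSemidef ∧
      (∀ i j, i ≠ j → (A i j ≠ 0 ↔ G.Adj i j)) ∧
      (∀ X : Matrix (Fin n) (Fin n) ℝ, X.IsSymm → (∀ i, X i i = 0) →
          (∀ i j, G.Adj i j → X i j = 0) → A * X = 0 → X = 0) ∧
      B.PosSemidef ∧
      (∀ i j, i ≠ j → (B i j ≠ 0 ↔ Gᶜ.Adj i j)) ∧
      (∀ X : Matrix (Fin n) (Fin n) ℝ, X.IsSymm → (∀ i, X i i = 0) →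
          (∀ i j, Gᶜ.Adj i j → X i j = 0) → B * X = 0 → X = 0) ∧
      b + max a (min 3 (n - 2 - b)) ≤ (n - A.rank) + (n - B.rank) := by
  obtain ⟨x, y, ⟨A, hA1, hA2, hA3, hA4⟩, ⟨B, hB1, hB2, hB3, hB4⟩, hxy⟩ :=
    exists_nul (nul_of_cert ha) (nul_of_cert hb)
  rw [Fintype.card_fin] at hA4 hB4 hxy
  exact ⟨A, B, hA1, hA2, hA3, hB1, hB2, hB3, by omega⟩

end Pool.Agent.Lib.MP_23961f_co.AC
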