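import Pool.Agent.Lib.MP_23961f_co.K.Cover

/-!
Minors and covers. `Model G f a`: the fibres of `f : V → Option W` over `W` are the branch sets of a
minor of `G` with more than `a` vertices in which of any two non-adjacent vertices one has degree at
least `a`. Main theorem `cert_of_model`.
-/

set_option autoImplicit false

namespace Pool.Agent.Lib.MP_23961f_co.AC

open Pool.Agent.Lib.MP_23961f_co.K

variable {V : Type*} [Fintype V] {W : Type*} [Fintype W]

/-- The fibres over `i` and `j` are joined by an edge. -/
def Joined (G : SimpleGraph V) (f : V → Option W) (i j : W) : Prop :=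
  i ≠ j ∧ ∃ v w, f v = some i ∧ f w = some j ∧ G.Adj v w

/-- Branch sets of a minor with more than `a` vertices in which of any two non-adjacent vertices one
has degree at least `a`. -/
def Model (G : SimpleGraph V) (f : V → Option W) (a : ℕ) : Prop :=
  a < Fintype.card W ∧ (∀ i, (G.induce {v | f v = some i}).Connected) ∧
    ∀ i j, i ≠ j → Joined G f i j ∨ a ≤ Set.ncard {k | Joined G f i k} ∨
      a ≤ Set.ncard {k | Joined G f j k}

/-- Connectivity under a surjection which maps edges to edges or points. -/
theorem connected_of_surj {α β : Type*} {H : SimpleGraph α} {H' : SimpleGraph β} (φ : α → β)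
    (hφ : Function.Surjective φ) (hadj : ∀ a b, H.Adj a b → φ a = φ b ∨ H'.Adj (φ a) (φ b))
    (h : H.Connected) : H'.Connected := by
  have hreach : ∀ a b, H.Reachable a b → H'.Reachable (φ a) (φ b) := by
    rintro a b ⟨p⟩
    induction p with
    | nil => exact SimpleGraph.Reachable.refl _
    | cons hab p ih =>
      rcases hadj _ _ hab with h1 | h1
      · rw [h1]
        exact ih
      · exact h1.reachable.trans ih
  have : Nonempty β := by
    have := h.nonempty
    exact ⟨φ (Classical.arbitrary α)⟩
  refine SimpleGraph.Connected.mk ?_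
  intro x y
  obtain ⟨a, rfl⟩ := hφ x
  obtain ⟨b, rfl⟩ := hφ y
  exact hreach a b (h.preconnected a b)

/-- Covers from injective branch sets. -/
theorem cov_of_model {G : SimpleGraph V} {f : V → Option W} {a : ℕ} (h : Model G f a)
    (hinj : ∀ v w i, f v = some i → f w = some i → v = w) : Cov G a := by
  classical
  obtain ⟨ha, hconn, hdeg⟩ := h
  have hex : ∀ i, ∃ v, f v = some i := by
    intro i
    obtain ⟨⟨v, hv⟩⟩ := (hconn i).nonempty
    exact ⟨v, hv⟩
  choose g hg using hex
  have hgf : ∀ v i, f v = some i → v = g i := fun v i hv => hinj v (g i) i hv (hg i)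
  have hginj : Function.Injective g := by
    intro i j hij
    have h1 := hg i
    rw [hij, hg j] at h1
    exact (Option.some.inj h1).symm
  have hgood : ∀ i, a ≤ Set.ncard {k | Joined G f i k} →
      Good G (Finset.univ.image g) ∅ a {g i} := by
    intro i hi
    refine ⟨?_, ?_, ?_⟩
    · intro v hv
      rw [Finset.mem_singleton] at hv
      subst hv
      exact Finset.mem_image_of_mem _ (Finset.mem_univ _)
    · intro v hv _ w hw _ hvw
      rw [Finset.mem_singleton] at hv hw
      exact absurd (hv.trans hw.symm) hvw
    · have h1 : Set.ncard {v | v ∈ ({g i} : Finset V) ∧ v ∉ (∅ : Finset V)} = 1 := by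
        rw [Set.ncard_eq_one]
        refine ⟨g i, ?_⟩
        ext v
        simp
      have h2 : Set.ncard {k | Joined G f i k} ≤ Set.ncard {w | w ∈ Finset.univ.image g ∧
          w ∉ ({g i} : Finset V) ∧ ∀ v ∈ ({g i} : Finset V), G.Adj v w} := by
        rw [← Set.ncard_image_of_injective {k | Joined G f i k} hginj]
        refine Set.ncard_le_ncard ?_ (Set.toFinite _)
        rintro _ ⟨k, ⟨hik, v, w, hv, hw, hvw⟩, rfl⟩
        rw [hgf v i hv, hgf w k hw] at hvw
        refine ⟨Finset.mem_image_of_mem _ (Finset.mem_univ _), ?_, ?_⟩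
        · rw [Finset.mem_singleton]
          exact fun h3 => hik (hginj h3).symm
        · intro y hy
          rw [Finset.mem_singleton] at hy
          rw [hy]
          exact hvw
      omega
  refine ⟨Finset.univ.image g, ∅, ?_, ?_⟩
  · rwa [Finset.card_image_of_injective _ hginj, Finset.card_univ]
  · intro v hv w hw hvw hadj
    obtain ⟨i, -, rfl⟩ := Finset.mem_image.1 hv
    obtain ⟨j, -, rfl⟩ := Finset.mem_image.1 hw
    have hij : i ≠ j := fun h3 => hvw (by rw [h3])
    rcases hdeg i j hij with ⟨_, v, w, hv', hw', h4⟩ | h3 | h3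
    · rw [hgf v i hv', hgf w j hw'] at h4
      exact absurd h4 hadj
    · exact Or.inl ⟨{g i}, Finset.mem_singleton_self _, hgood i h3⟩
    · exact Or.inr ⟨{g j}, Finset.mem_singleton_self _, hgood j h3⟩

omit [Fintype V] in
/-- The contraction of the edge `z z'` in a branch set. -/
theorem model_esh {G : SimpleGraph V} {f : V → Option W} {a : ℕ} (h : Model G f a) {z z' : V}
    (hz : G.Adj z z') (hf : f z = f z') [DecidableEq V] :
    Model (esh G z z') (Function.update f z' none) a := by
  obtain ⟨ha, hconn, hdeg⟩ := h
  have hne : z ≠ z' := hz.ne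
  let φ : V → V := fun v => if v = z' then z else v
  have hφz' : φ z' = z := if_pos rfl
  have hφ : ∀ v, v ≠ z' → φ v = v := fun v hv => if_neg hv
  have hφne : ∀ v, φ v ≠ z' := by
    intro v
    by_cases hv : v = z'
    · subst hv
      rw [hφz']
      exact hne
    · rw [hφ v hv]
      exact hv
  have hφf : ∀ v, Function.update f z' none (φ v) = f v := by
    intro v
    rw [Function.update_of_ne (hφne v)]
    by_cases hv : v = z'
    · subst hv
      rw [hφz', hf]
    · rw [hφ v hv]
  have hadj : ∀ v w, G.Adj v w → φ v = φ w ∨ (esh G z z').Adj (φ v) (φ w) := by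
    intro v w hvw
    by_cases heq : φ v = φ w
    · exact Or.inl heq
    refine Or.inr ⟨heq, ?_⟩
    by_cases hv : v = z'
    · subst hv
      have hw : w ≠ v := hvw.ne'
      rw [hφz', hφ w hw]
      exact Or.inr (Or.inr (Or.inl ⟨rfl, hw, Or.inr hvw⟩))
    · by_cases hw : w = z'
      · subst hw
        rw [hφz', hφ v hv]
        exact Or.inr (Or.inr (Or.inr (Or.inl ⟨rfl, hv, Or.inr hvw.symm⟩)))
      · rw [hφ v hv, hφ w hw] at heq ⊢
        by_cases hvz : v = z
        · subst hvz
          exact Or.inr (Or.inr (Or.inl ⟨rfl, hw, Or.inl hvw⟩))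
        · by_cases hwz : w = z
          · subst hwz
            exact Or.inr (Or.inr (Or.inr (Or.inl ⟨rfl, hv, Or.inl hvw.symm⟩)))
          · exact Or.inr (Or.inr (Or.inr (Or.inr (Or.inr (Or.inr ⟨hvz, hv, hwz, hw, hvw⟩)))))
  have hjoin : ∀ i j, Joined G f i j → Joined (esh G z z') (Function.update f z' none) i j := by
    rintro i j ⟨hij, v, w, hv, hw, hvw⟩
    refine ⟨hij, φ v, φ w, (hφf v).trans hv, (hφf w).trans hw, ?_⟩
    refine (hadj v w hvw).resolve_left fun h1 => ?_
    have h2 := congrArg (Function.update f z' none) h1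
    rw [hφf, hφf, hv, hw] at h2
    exact hij (Option.some.inj h2)
  have hcard : ∀ i, Set.ncard {k | Joined G f i k} ≤
      Set.ncard {k | Joined (esh G z z') (Function.update f z' none) i k} := fun i =>
    Set.ncard_le_ncard (fun k hk => hjoin i k hk) (Set.toFinite _)
  refine ⟨ha, ?_, ?_⟩
  · intro i
    refine connected_of_surj (H := G.induce {v | f v = some i})
      (fun v => ⟨φ v.1, (hφf v.1).trans v.2⟩) ?_ ?_ (hconn i)
    · rintro ⟨y, hy⟩
      have hyz : y ≠ z' := by
        rintro rfl
        simp at hy
      refine ⟨⟨y, ?_⟩, ?_⟩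
      · have hy' : Function.update f z' none y = some i := hy
        rw [Function.update_of_ne hyz] at hy'
        exact hy'
      · exact Subtype.ext (hφ y hyz)
    · rintro ⟨v, hv⟩ ⟨w, hw⟩ hvw
      rcases hadj v w hvw with h1 | h1
      · exact Or.inl (Subtype.ext h1)
      · exact Or.inr h1
  · intro i j hij
    rcases hdeg i j hij with h1 | h1 | h1
    · exact Or.inl (hjoin i j h1)
    · exact Or.inr (Or.inl (h1.trans (hcard i)))
    · exact Or.inr (Or.inr (h1.trans (hcard j)))

/-- Minors give certificates. -/
theorem cert_of_model {a : ℕ} : ∀ (N : ℕ) (G : SimpleGraph V) (f : V → Option W),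
    Set.ncard {v | f v ≠ none} ≤ N → Model G f a → Cert a G := by
  classical
  intro N
  induction N with
  | zero =>
    intro G f hN h
    refine Cert.cov G (cov_of_model h ?_)
    intro v w i hv _
    have h1 : {v | f v ≠ none} = (∅ : Set V) := by
      rw [← Set.ncard_eq_zero (Set.toFinite _)]
      omega
    have h2 : v ∈ {v | f v ≠ none} := by
      show f v ≠ none
      rw [hv]
      simp
    rw [h1] at h2
    exact absurd h2 (Set.notMem_empty v)
  | succ N ih =>
    intro G f hN h
    by_cases hinj : ∀ v w i, f v = some i → f w = some i → v = w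
    · exact Cert.cov G (cov_of_model h hinj)
    · push Not at hinj
      obtain ⟨v, w, i, hv, hw, hvw⟩ := hinj
      -- an edge in the branch set of `i`
      obtain ⟨z', hz', hadj⟩ : ∃ z', f z' = some i ∧ G.Adj v z' := by
        obtain ⟨p⟩ := (h.2.1 i).preconnected ⟨v, hv⟩ ⟨w, hw⟩
        cases p with
        | nil => exact absurd rfl hvw
        | @cons _ y _ h1 p => exact ⟨y.1, y.2, h1⟩
      refine Cert.shift G v z' hadj (ih _ (Function.update f z' none) ?_
        (model_esh h hadj (hv.trans hz'.symm)))
      have h1 : {y | Function.update f z' none y ≠ none} ⊆ {y | f y ≠ none} \ {z'} := by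
        intro y hy
        have hy' : Function.update f z' none y ≠ none := hy
        by_cases hyz : y = z'
        · subst hyz
          simp at hy'
        · rw [Function.update_of_ne hyz] at hy'
          exact ⟨hy', hyz⟩
      have h2 := Set.ncard_le_ncard h1 (Set.toFinite _)
      have h3 : z' ∈ {y | f y ≠ none} := by
        show f z' ≠ none
        rw [hz']
        simp
      have h4 := Set.ncard_sdiff_singleton_add_one h3 (Set.toFinite _)
      omega

/-- A minor with more than `a` vertices in which of any two non-adjacent vertices one has degree at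
least `a` gives `nu ≥ a`. -/
theorem nul_of_model {G : SimpleGraph V} {f : V → Option W} {a : ℕ} (h : Model G f a) : Nul G a :=
  nul_of_cert (cert_of_model _ G f le_rfl h)

end Pool.Agent.Lib.MP_23961f_co.AC
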