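import Pool.Agent.Lib.MP_23961f_co.AC.MainO
import Pool.Agent.Lib.MP_23961f_co.AC.Main
import Pool.Agent.Lib.MP_23961f_co.AC.Minor

/-!
Consequences of `gcc_of_certO`: the certificates `Cert` of `Main` are certificates `CertO`, and so
are minors and orders with few earlier neighbours. `gcc_of_two_degenerate`: the asked inequality for
every 2-degenerate graph. `gcc_of_acyclic_four`: the asked inequality for every graph with an acyclic
4-colouring.
-/

set_option autoImplicit false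

namespace Pool.Agent.Lib.MP_23961f_co.AC

open Pool.Agent.Lib.MP_23961f_co.K

section

variable {V : Type*} [Fintype V]

/-- Rounds which empty the complement give certificates. -/
theorem certO_of_kill : ∀ (k a : ℕ) (G : SimpleGraph V), a + 1 + k ≤ Fintype.card V →
    Kill k Gᶜ → CertO a G := by
  intro k
  induction k with
  | zero =>
    intro a G hk h
    refine CertO.col a G (m := 1) (fun _ => 0) (fun _ => 0)
      (fun v => (Fintype.equivFin V v : ℕ)) ?_ ?_ (by simpa using hk)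
    · intro v w hvw
      exact (Fintype.equivFin V).injective (Fin.ext hvw)
    · intro r s U hU hc
      obtain ⟨v, hv⟩ := hU
      exact ⟨v, hv, s, Or.inl ⟨Subsingleton.elim _ _, rfl⟩, fun b _ hb => absurd hb (h v b)⟩
  | succ k ih =>
    intro a G hk h
    obtain ⟨I, hI, hk2⟩ := h
    refine CertO.round a G I hI (ih (a + 1) _ (by omega) ?_)
    rw [compl_compl]
    exact hk2

/-- A weighted acyclic colouring is an ordered weighted colouring for every order. -/
theorem wo_of_wac {m : ℕ} {G : SimpleGraph V} {c : V → Fin m} {d : Fin m → ℕ} (o : V → ℕ)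
    (h : WAC G c d) : WO G c d o := by
  intro r s U hU hc
  by_cases hrs : r = s
  · subst hrs
    obtain ⟨v, hv⟩ := hU
    have hcv : c v = r := (hc v hv).elim id id
    refine ⟨v, hv, r, Or.inl ⟨hcv, rfl⟩, fun b _ hadj hb => ?_⟩
    exact absurd (hcv.trans hb.symm) (h.1 v b hadj)
  · obtain ⟨v, hv, ⟨h1, h2⟩ | ⟨h1, h2⟩⟩ := h.2 r s hrs U hU hc
    · refine ⟨v, hv, s, Or.inl ⟨h1, rfl⟩, fun b _ _ hb => ?_⟩
      refine le_trans (Set.ncard_le_ncard ?_ (Set.toFinite _)) h2
      rintro x ⟨hx, ⟨hxb, _⟩ | ⟨hxU, hxv, _⟩⟩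
      · exact absurd (hx.trans hb.symm) (h.1 x b hxb)
      · exact ⟨hxU, hxv⟩
    · refine ⟨v, hv, r, Or.inr ⟨h1, rfl⟩, fun b _ _ hb => ?_⟩
      refine le_trans (Set.ncard_le_ncard ?_ (Set.toFinite _)) h2
      rintro x ⟨hx, ⟨hxb, _⟩ | ⟨hxU, hxv, _⟩⟩
      · exact absurd (hx.trans hb.symm) (h.1 x b hxb)
      · exact ⟨hxU, hxv⟩

theorem certO_of_cert {G : SimpleGraph V} {a : ℕ} (h : Cert a G) : CertO a G := by
  induction h with
  | cov G h =>
    refine certO_of_kill _ a G ?_ (kill_of_cov h)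
    obtain ⟨S, D, haS, -⟩ := h
    have h1 := Finset.card_le_univ S
    omega
  | col G c d h hd =>
    refine CertO.col a G c d (fun v => (Fintype.equivFin V v : ℕ)) ?_ (wo_of_wac _ h) hd
    intro v w hvw
    exact (Fintype.equivFin V).injective (Fin.ext hvw)
  | shift G z z' h h' ih => exact CertO.shift a G z z' h ih

theorem certO_of_certK {G : SimpleGraph V} {a : ℕ} (h : K.Cert a G) : CertO a G := by
  induction h with
  | cov G h => exact certO_of_cert (Cert.cov G h)
  | shift G z z' h h' ih => exact CertO.shift a G z z' h ih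

theorem certO_of_model {W : Type*} [Fintype W] {G : SimpleGraph V} {f : V → Option W} {a : ℕ}
    (h : Model G f a) : CertO a G := certO_of_certK (cert_of_model _ G f le_rfl h)

/-- An order with at most `k` earlier neighbours gives an ordered weighted colouring with one colour
of weight `2 * k`. -/
theorem wo_of_order {G : SimpleGraph V} {o : V → ℕ} (ho : Function.Injective o) {k : ℕ}
    (h : ∀ v, Set.ncard {x | G.Adj x v ∧ o x < o v} ≤ k) :
    WO G (fun _ => (0 : Fin 1)) (fun _ => 2 * k) o := by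
  classical
  intro r s U hU hc
  obtain ⟨v, hv, hmax⟩ := Finset.exists_max_image U o hU
  refine ⟨v, hv, s, Or.inl ⟨Subsingleton.elim _ _, rfl⟩, fun b hb hvb _ => ?_⟩
  have h1 : {x | (0 : Fin 1) = s ∧ ((G.Adj x b ∧ o x < o b) ∨
      (x ∈ U ∧ G.Adj v x ∧ o x ≤ o b))} ⊆
      {x | G.Adj x b ∧ o x < o b} ∪ {x | G.Adj x v ∧ o x < o v} := by
    rintro x ⟨_, h2 | ⟨h2, h3, h4⟩⟩
    · exact Or.inl h2
    · rcases lt_or_eq_of_le (hmax x h2) with h5 | h5
      · exact Or.inr ⟨h3.symm, h5⟩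
      · exact absurd (ho h5).symm h3.ne
  have h3 := Set.ncard_le_ncard h1 (Set.toFinite _)
  have h4 := Set.ncard_union_le {x | G.Adj x b ∧ o x < o b} {x | G.Adj x v ∧ o x < o v}
  have h5 := h b
  have h6 := h v
  show Set.ncard {x | (0 : Fin 1) = s ∧ ((G.Adj x b ∧ o x < o b) ∨
      (x ∈ U ∧ G.Adj v x ∧ o x ≤ o b))} ≤ 2 * k
  omega

/-- A `k`-degenerate graph has an order with at most `k` earlier neighbours. -/
theorem exists_order {G : SimpleGraph V} {k : ℕ}
    (h : ∀ S : Finset V, S.Nonempty → ∃ v ∈ S, Set.ncard {x | x ∈ S ∧ G.Adj v x} ≤ k) :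
    ∃ o : V → ℕ, Function.Injective o ∧ ∀ v, Set.ncard {x | G.Adj x v ∧ o x < o v} ≤ k := by
  classical
  have key : ∀ (m : ℕ) (S : Finset V), S.card = m → ∃ o : V → ℕ,
      (∀ v ∈ S, o v < m) ∧ (∀ v ∈ S, ∀ w ∈ S, o v = o w → v = w) ∧
      ∀ v ∈ S, Set.ncard {x | x ∈ S ∧ G.Adj x v ∧ o x < o v} ≤ k := by
    intro m
    induction m with
    | zero =>
      intro S hS
      rw [Finset.card_eq_zero] at hS
      subst hS
      exact ⟨fun _ => 0, by simp, by simp, by simp⟩
    | succ m ih =>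
      intro S hS
      obtain ⟨v0, hv0, hd⟩ := h S (Finset.card_pos.1 (by omega))
      obtain ⟨o, ho1, ho2, ho3⟩ := ih (S.erase v0) (by rw [Finset.card_erase_of_mem hv0]; omega)
      have hself : Function.update o v0 m v0 = m := Function.update_self _ _ _
      have hne : ∀ v, v ≠ v0 → Function.update o v0 m v = o v := fun v hv =>
        Function.update_of_ne hv _ _
      have hlt : ∀ v ∈ S, v ≠ v0 → Function.update o v0 m v < m := fun v hv hv2 => by
        rw [hne v hv2]
        exact ho1 v (Finset.mem_erase.2 ⟨hv2, hv⟩)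
      refine ⟨Function.update o v0 m, ?_, ?_, ?_⟩
      · intro v hv
        by_cases hv2 : v = v0
        · subst hv2
          rw [hself]
          omega
        · have := hlt v hv hv2
          omega
      · intro v hv w hw hvw
        by_cases hv2 : v = v0
        · by_cases hw2 : w = v0
          · rw [hv2, hw2]
          · subst hv2
            rw [hself] at hvw
            have := hlt w hw hw2
            omega
        · by_cases hw2 : w = v0
          · subst hw2
            rw [hself] at hvw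
            have := hlt v hv hv2
            omega
          · rw [hne v hv2, hne w hw2] at hvw
            exact ho2 v (Finset.mem_erase.2 ⟨hv2, hv⟩) w (Finset.mem_erase.2 ⟨hw2, hw⟩) hvw
      · intro v hv
        by_cases hv2 : v = v0
        · subst hv2
          refine le_trans (Set.ncard_le_ncard ?_ (Set.toFinite _)) hd
          rintro x ⟨h1, h2, _⟩
          exact ⟨h1, h2.symm⟩
        · refine le_trans (Set.ncard_le_ncard ?_ (Set.toFinite _))
            (ho3 v (Finset.mem_erase.2 ⟨hv2, hv⟩))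
          rintro x ⟨h1, h2, h3⟩
          have hx : x ≠ v0 := by
            rintro rfl
            rw [hself] at h3
            have := hlt v hv hv2
            omega
          rw [hne x hx, hne v hv2] at h3
          exact ⟨Finset.mem_erase.2 ⟨hx, h1⟩, h2, h3⟩
  obtain ⟨o, _, ho2, ho3⟩ := key _ Finset.univ rfl
  refine ⟨o, fun v w hvw => ho2 v (Finset.mem_univ _) w (Finset.mem_univ _) hvw, fun v => ?_⟩
  refine le_trans (Set.ncard_le_ncard ?_ (Set.toFinite _)) (ho3 v (Finset.mem_univ _))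
  rintro x ⟨h1, h2⟩
  exact ⟨Finset.mem_univ _, h1, h2⟩

theorem certO_zero [Nonempty V] (G : SimpleGraph V) : CertO 0 G := by
  refine CertO.deg 0 G ⟨{Classical.arbitrary V}, by simp, ?_⟩
  intro v hv w hw hvw
  rw [Finset.mem_singleton] at hv hw
  exact absurd (hv.trans hw.symm) hvw

end

/-- The asked inequality if the graph has an orthogonal configuration without stress in dimension
`4` coming from an ordered weighted colouring. -/
theorem gcc_of_wo_four {n : ℕ} {G : SimpleGraph (Fin n)} {m : ℕ} {c : Fin n → Fin m}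
    {d : Fin m → ℕ} {o : Fin n → ℕ} (ho : Function.Injective o) (h : WO G c d o)
    (hd : ∑ r, d r ≤ 4) :
    ∃ (A B : Matrix (Fin n) (Fin n) ℝ),
      A.PosSemidef ∧
      (∀ i j, i ≠ j → (A i j ≠ 0 ↔ G.Adj i j)) ∧
      (∀ X : Matrix (Fin n) (Fin n) ℝ, X.IsSymm → (∀ i, X i i = 0) →
          (∀ i j, G.Adj i j → X i j = 0) → A * X = 0 → X = 0) ∧
      B.PosSemidef ∧
      (∀ i j, i ≠ j → (B i j ≠ 0 ↔ Gᶜ.Adj i j)) ∧
      (∀ X : Matrix (Fin n) (Fin n) ℝ, X.IsSymm → (∀ i, X i i = 0) →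
          (∀ i j, Gᶜ.Adj i j → X i j = 0) → B * X = 0 → X = 0) ∧
      n - 2 ≤ (n - A.rank) + (n - B.rank) := by
  rcases Nat.eq_zero_or_pos n with hn | hn
  · subst hn
    refine ⟨0, 0, Matrix.PosSemidef.zero, fun i => i.elim0, fun X _ _ _ _ => ?_,
      Matrix.PosSemidef.zero, fun i => i.elim0, fun X _ _ _ _ => ?_, by omega⟩
    · exact Subsingleton.elim _ _
    · exact Subsingleton.elim _ _
  · have : Nonempty (Fin n) := ⟨⟨0, hn⟩⟩
    obtain ⟨b, hb1, hb2⟩ : ∃ b, CertO b Gᶜ ∧ n - 2 ≤ b + min 3 (n - 2 - b) := by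
      by_cases h5 : 5 ≤ n
      · refine ⟨n - 5, CertO.col _ _ c d o ho ?_ ?_, by omega⟩
        · rw [compl_compl]
          exact h
        · rw [Fintype.card_fin]
          omega
      · exact ⟨0, certO_zero _, by omega⟩
    obtain ⟨A, B, h1, h2, h3, h4, h5, h6, h7⟩ := gcc_of_certO G 0 b (certO_zero G) hb1
    exact ⟨A, B, h1, h2, h3, h4, h5, h6, by omega⟩

/-- The asked inequality for every 2-degenerate graph. -/
theorem gcc_of_two_degenerate {n : ℕ} {G : SimpleGraph (Fin n)}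
    (h : ∀ S : Finset (Fin n), S.Nonempty → ∃ v ∈ S, Set.ncard {x | x ∈ S ∧ G.Adj v x} ≤ 2) :
    ∃ (A B : Matrix (Fin n) (Fin n) ℝ),
      A.PosSemidef ∧
      (∀ i j, i ≠ j → (A i j ≠ 0 ↔ G.Adj i j)) ∧
      (∀ X : Matrix (Fin n) (Fin n) ℝ, X.IsSymm → (∀ i, X i i = 0) →
          (∀ i j, G.Adj i j → X i j = 0) → A * X = 0 → X = 0) ∧
      B.PosSemidef ∧
      (∀ i j, i ≠ j → (B i j ≠ 0 ↔ Gᶜ.Adj i j)) ∧
      (∀ X : Matrix (Fin n) (Fin n) ℝ, X.IsSymm → (∀ i, X i i = 0) →
          (∀ i j, Gᶜ.Adj i j → X i j = 0) → B * X = 0 → X = 0) ∧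
      n - 2 ≤ (n - A.rank) + (n - B.rank) := by
  obtain ⟨o, ho, h1⟩ := exists_order h
  exact gcc_of_wo_four ho (wo_of_order ho h1) (by simp)

/-- The asked inequality for every graph with an acyclic 4-colouring. -/
theorem gcc_of_acyclic_four {n : ℕ} {G : SimpleGraph (Fin n)} (c : Fin n → Fin 4)
    (hc : ∀ v w, G.Adj v w → c v ≠ c w)
    (hac : ∀ r s, r ≠ s → ∀ U : Finset (Fin n), U.Nonempty → (∀ v ∈ U, c v = r ∨ c v = s) →
      ∃ v ∈ U, Set.ncard {w | w ∈ U ∧ G.Adj v w} ≤ 1) :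
    ∃ (A B : Matrix (Fin n) (Fin n) ℝ),
      A.PosSemidef ∧
      (∀ i j, i ≠ j → (A i j ≠ 0 ↔ G.Adj i j)) ∧
      (∀ X : Matrix (Fin n) (Fin n) ℝ, X.IsSymm → (∀ i, X i i = 0) →
          (∀ i j, G.Adj i j → X i j = 0) → A * X = 0 → X = 0) ∧
      B.PosSemidef ∧
      (∀ i j, i ≠ j → (B i j ≠ 0 ↔ Gᶜ.Adj i j)) ∧
      (∀ X : Matrix (Fin n) (Fin n) ℝ, X.IsSymm → (∀ i, X i i = 0) →
          (∀ i j, Gᶜ.Adj i j → X i j = 0) → B * X = 0 → X = 0) ∧
      n - 2 ≤ (n - A.rank) + (n - B.rank) := by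
  have h : WAC G c (fun _ => 1) := by
    refine ⟨hc, fun r s hrs U hU hU2 => ?_⟩
    obtain ⟨v, hv, h1⟩ := hac r s hrs U hU hU2
    rcases hU2 v hv with h2 | h2
    · exact ⟨v, hv, Or.inl ⟨h2, h1⟩⟩
    · exact ⟨v, hv, Or.inr ⟨h2, h1⟩⟩
  exact gcc_of_wo_four (o := fun v => (v : ℕ)) (fun v w hvw => Fin.ext hvw) (wo_of_wac _ h)
    (by simp)

end Pool.Agent.Lib.MP_23961f_co.AC
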