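import Pool.Agent.Lib.MP_23961f_co.K.Cover

/-!
Generic sequential orthogonal configurations. `Tame S o D B`: for every `b ∈ B` at most `D` vertices
are earlier `S`-neighbours of `b` or members of `B` not after `b`. Main theorem `exists_seq`: a
configuration in dimension `D`, orthogonal along `S`, all tame sets independent.
-/

set_option autoImplicit false

open scoped InnerProductSpace

namespace Pool.Agent.Lib.MP_23961f_co.AC

variable {V : Type*} [Fintype V]

/-- For every `b ∈ B` at most `D` vertices are earlier `S`-neighbours of `b` or members of `B` not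
after `b`. -/
def Tame (S : V → V → Prop) (o : V → ℕ) (D : ℕ) (B : Set V) : Prop :=
  ∀ b ∈ B, Set.ncard {x | (S x b ∧ o x < o b) ∨ (x ∈ B ∧ o x ≤ o b)} ≤ D

theorem Tame.mono {S : V → V → Prop} {o : V → ℕ} {D : ℕ} {B C : Set V} (h : Tame S o D B)
    (hCB : C ⊆ B) : Tame S o D C := by
  intro b hb
  refine le_trans (Set.ncard_le_ncard ?_ (Set.toFinite _)) (h b (hCB hb))
  rintro x (h1 | h1)
  · exact Or.inl h1
  · exact Or.inr ⟨hCB h1.1, h1.2⟩

/-- A vector of `W` outside of finitely many subspaces which do not contain `W`. -/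
theorem exists_avoid {E : Type*} [AddCommGroup E] [Module ℝ E] {ι : Type*} (W : Submodule ℝ E)
    (s : Finset ι) (p : ι → Submodule ℝ E) (h : ∀ i ∈ s, ¬ W ≤ p i) :
    ∃ z ∈ W, ∀ i ∈ s, z ∉ p i := by
  classical
  by_contra hno
  push Not at hno
  have h1 : ⋃ q ∈ s.image (fun i => (p i).comap W.subtype), (q : Set W) = Set.univ := by
    rw [Set.eq_univ_iff_forall]
    rintro ⟨z, hz⟩
    obtain ⟨i, hi, hzi⟩ := hno z hz
    simp only [Set.mem_iUnion]
    exact ⟨(p i).comap W.subtype, Finset.mem_image_of_mem _ hi, hzi⟩
  refine Subspace.biUnion_ne_univ_of_top_notMem (s := s.image (fun i => (p i).comap W.subtype))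
    ?_ h1
  intro htop
  obtain ⟨i, hi, hi2⟩ := Finset.mem_image.1 htop
  refine h i hi fun z hz => ?_
  have h2 : (⟨z, hz⟩ : W) ∈ (p i).comap W.subtype := by
    rw [hi2]
    trivial
  exact h2

open Classical in
/-- The dimension count: if `|X ∪ Y| < D` and `u` is independent on `Y`, then the orthogonal
complement of `X` is not contained in the span of `Y`. -/
theorem not_le_span {D : ℕ} (u : V → EuclideanSpace ℝ (Fin D)) {X Y : Finset V}
    (hY : LinearIndepOn ℝ u (Y : Set V)) (hXY : (X ∪ Y).card < D) :
    ¬ (Submodule.span ℝ (u '' (X : Set V)))ᗮ ≤ Submodule.span ℝ (u '' (Y : Set V)) := by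
  intro hle
  let KX := Submodule.span ℝ (u '' (X : Set V))
  let KY := Submodule.span ℝ (u '' (Y : Set V))
  let KZ := Submodule.span ℝ (u '' ((X ∩ Y : Finset V) : Set V))
  have hZX : KZ ≤ KX := Submodule.span_mono (Set.image_mono (by
    intro x hx
    exact Finset.mem_coe.2 (Finset.mem_inter.1 (Finset.mem_coe.1 hx)).1))
  have hZY : KZ ≤ KY := Submodule.span_mono (Set.image_mono (by
    intro x hx
    exact Finset.mem_coe.2 (Finset.mem_inter.1 (Finset.mem_coe.1 hx)).2))
  have h1 : Module.finrank ℝ KX + Module.finrank ℝ KXᗮ = D := by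
    have := Submodule.finrank_add_finrank_orthogonal KX
    rwa [finrank_euclideanSpace_fin] at this
  have h2 : Module.finrank ℝ KX ≤ X.card := by
    have := finrank_span_finset_le_card (R := ℝ) (X.image u)
    rw [Finset.coe_image] at this
    exact this.trans Finset.card_image_le
  have h3 : Module.finrank ℝ KZ + Module.finrank ℝ (KZᗮ ⊓ KY : Submodule ℝ _) =
      Module.finrank ℝ KY := Submodule.finrank_add_inf_finrank_orthogonal hZY
  have h4 : ∀ T : Finset V, T ⊆ Y →
      Module.finrank ℝ (Submodule.span ℝ (u '' (T : Set V))) = T.card := by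
    intro T hT
    have h5 : LinearIndepOn ℝ u (T : Set V) := hY.mono (Finset.coe_subset.2 hT)
    have h6 : Set.InjOn u (T : Set V) := h5.injOn
    have h7 : LinearIndepOn ℝ id (u '' (T : Set V)) := h5.id_image
    have h8 : Module.finrank ℝ (Submodule.span ℝ
        ((T.image u : Finset (EuclideanSpace ℝ (Fin D))) : Set (EuclideanSpace ℝ (Fin D)))) =
        (T.image u).card := by
      refine finrank_span_finset_eq_card ?_
      rw [Finset.coe_image]
      exact h7
    rw [Finset.coe_image, Finset.card_image_of_injOn h6] at h8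
    exact h8
  have h5 : Module.finrank ℝ KY = Y.card := h4 Y subset_rfl
  have h6 : Module.finrank ℝ KZ = (X ∩ Y).card := h4 _ Finset.inter_subset_right
  have h7 : KXᗮ ≤ KZᗮ ⊓ KY := le_inf (Submodule.orthogonal_le hZX) hle
  have h8 : Module.finrank ℝ KXᗮ ≤ Module.finrank ℝ (KZᗮ ⊓ KY : Submodule ℝ _) :=
    Submodule.finrank_mono h7
  have h9 := Finset.card_union_add_card_inter X Y
  omega

/-- Generic sequential orthogonal configurations. -/
theorem exists_seq {S : V → V → Prop} (hS : ∀ v w, S v w → S w v) (hirr : ∀ v, ¬ S v v)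
    {o : V → ℕ} (ho : Function.Injective o) (D : ℕ) :
    ∃ u : V → EuclideanSpace ℝ (Fin D), (∀ v w, S v w → ⟪u v, u w⟫_ℝ = 0) ∧
      ∀ B : Set V, Tame S o D B → LinearIndepOn ℝ u B := by
  classical
  have key : ∀ m : ℕ, ∃ u : V → EuclideanSpace ℝ (Fin D),
      (∀ v w, o v < m → o w < m → S v w → ⟪u v, u w⟫_ℝ = 0) ∧
      ∀ B : Finset V, Tame S o D (B : Set V) → (∀ b ∈ B, o b < m) →
        LinearIndepOn ℝ u (B : Set V) := by
    intro m
    induction m with
    | zero =>
      refine ⟨fun _ => 0, fun _ _ h => absurd h (Nat.not_lt_zero _), fun B _ hB => ?_⟩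
      have h1 : B = ∅ := by
        rw [Finset.eq_empty_iff_forall_notMem]
        intro b hb
        exact absurd (hB b hb) (Nat.not_lt_zero _)
      subst h1
      rw [Finset.coe_empty]
      exact linearIndepOn_empty _ _
    | succ m ih =>
      obtain ⟨u, hu1, hu2⟩ := ih
      by_cases hb0 : ∃ b, o b = m
      swap
      · push Not at hb0
        have h1 : ∀ v, o v < m + 1 → o v < m := fun v hv =>
          lt_of_le_of_ne (Nat.lt_succ_iff.1 hv) (hb0 v)
        exact ⟨u, fun v w hv hw => hu1 v w (h1 v hv) (h1 w hw),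
          fun B hB hB2 => hu2 B hB fun b hb => h1 b (hB2 b hb)⟩
      obtain ⟨b0, hb0⟩ := hb0
      have hlt : ∀ v, o v < m + 1 → v ≠ b0 → o v < m := by
        intro v hv hne
        refine lt_of_le_of_ne (Nat.lt_succ_iff.1 hv) fun h => hne (ho (h.trans hb0.symm))
      let X : Finset V := Finset.univ.filter (fun x => S x b0 ∧ o x < o b0)
      let s : Finset (Finset V) := Finset.univ.filter (fun B => b0 ∈ B ∧
        Tame S o D (B : Set V) ∧ ∀ b ∈ B, o b < m + 1)
      -- the induction hypothesis on the rest of a tame set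
      have hrest : ∀ B ∈ s, LinearIndepOn ℝ u ((B.erase b0 : Finset V) : Set V) := by
        intro B hB
        obtain ⟨-, -, h2, h3⟩ := Finset.mem_filter.1 hB
        refine hu2 _ (h2.mono ?_) ?_
        · rw [Finset.coe_erase]
          exact Set.sdiff_subset
        · intro b hb
          exact hlt b (h3 b (Finset.mem_erase.1 hb).2) (Finset.mem_erase.1 hb).1
      have havoid : ∀ B ∈ s, ¬ (Submodule.span ℝ (u '' (X : Set V)))ᗮ ≤
          Submodule.span ℝ (u '' ((B.erase b0 : Finset V) : Set V)) := by
        intro B hB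
        refine not_le_span u (hrest B hB) ?_
        obtain ⟨-, h1, h2, h3⟩ := Finset.mem_filter.1 hB
        refine lt_of_lt_of_le ?_ (h2 b0 h1)
        rw [← Set.ncard_coe_finset]
        refine Set.ncard_lt_ncard ?_ (Set.toFinite _)
        rw [Set.ssubset_iff_subset_ne]
        constructor
        · intro x hx
          rcases Finset.mem_union.1 (Finset.mem_coe.1 hx) with h4 | h4
          · exact Or.inl (Finset.mem_filter.1 h4).2
          · refine Or.inr ⟨Finset.mem_coe.2 (Finset.mem_erase.1 h4).2, ?_⟩
            have := h3 x (Finset.mem_erase.1 h4).2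
            omega
        · intro heq
          have h4 : b0 ∈ ((X ∪ B.erase b0 : Finset V) : Set V) := by
            rw [heq]
            exact Or.inr ⟨Finset.mem_coe.2 h1, le_rfl⟩
          rcases Finset.mem_union.1 (Finset.mem_coe.1 h4) with h5 | h5
          · exact hirr b0 (Finset.mem_filter.1 h5).2.1
          · exact (Finset.mem_erase.1 h5).1 rfl
      obtain ⟨z, hzW, hz⟩ := exists_avoid _ s _ havoid
      have hupd : ∀ v, v ≠ b0 → Function.update u b0 z v = u v := fun v hv =>
        Function.update_of_ne hv _ _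
      have hzX : ∀ x, S x b0 → o x < m → ⟪u x, z⟫_ℝ = 0 := by
        intro x hx hxm
        refine Submodule.inner_right_of_mem_orthogonal (K := Submodule.span ℝ (u '' (X : Set V)))
          (Submodule.subset_span ⟨x, ?_, rfl⟩) hzW
        refine Finset.mem_coe.2 (Finset.mem_filter.2 ⟨Finset.mem_univ _, hx, ?_⟩)
        omega
      refine ⟨Function.update u b0 z, ?_, ?_⟩
      · intro v w hv hw hvw
        by_cases hvb : v = b0
        · subst hvb
          have hwv : w ≠ v := by
            rintro rfl
            exact hirr w hvw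
          rw [Function.update_self, hupd w hwv, real_inner_comm]
          exact hzX w (hS _ _ hvw) (hlt w hw hwv)
        · by_cases hwb : w = b0
          · subst hwb
            rw [Function.update_self, hupd v hvb]
            exact hzX v hvw (hlt v hv hvb)
          · rw [hupd v hvb, hupd w hwb]
            exact hu1 v w (hlt v hv hvb) (hlt w hw hwb) hvw
      · intro B hB hB2
        by_cases hbB : b0 ∈ B
        · have hBs : B ∈ s := Finset.mem_filter.2 ⟨Finset.mem_univ _, hbB, hB, hB2⟩
          have h1 : (B : Set V) = insert b0 ((B.erase b0 : Finset V) : Set V) := by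
            rw [← Finset.coe_insert, Finset.insert_erase hbB]
          have hcongr : ∀ v ∈ ((B.erase b0 : Finset V) : Set V),
              Function.update u b0 z v = u v := fun v hv =>
            hupd v (Finset.mem_erase.1 (Finset.mem_coe.1 hv)).1
          rw [h1, linearIndepOn_insert (by simp)]
          refine ⟨(hrest B hBs).congr fun v hv => (hcongr v hv).symm, ?_⟩
          rw [Function.update_self, Set.image_congr hcongr]
          exact hz B hBs
        · refine (hu2 B hB fun b hb => hlt b (hB2 b hb) ?_).congr fun v hv => (hupd v ?_).symm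
          · rintro rfl
            exact hbB hb
          · rintro rfl
            exact hbB (Finset.mem_coe.1 hv)
  obtain ⟨m, hm⟩ : ∃ m, ∀ v : V, o v < m :=
    ⟨(Finset.univ.sup o) + 1, fun v => Nat.lt_succ_of_le (Finset.le_sup (Finset.mem_univ v))⟩
  obtain ⟨u, hu1, hu2⟩ := key m
  refine ⟨u, fun v w => hu1 v w (hm v) (hm w), fun B hB => ?_⟩
  have h1 : ((Set.toFinite B).toFinset : Set V) = B := Set.Finite.coe_toFinset _
  have h2 := hu2 (Set.toFinite B).toFinset (by rwa [h1]) (fun b _ => hm b)
  rwa [h1] at h2

end Pool.Agent.Lib.MP_23961f_co.AC
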