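import Pool.Agent.Lib.MP_23961f_co.AC.Ordered

/-!
Certificates: degrees, ordered weighted colourings of the complement, shifts along edges, rounds.
Main theorem `gcc_of_certO`.
-/

set_option autoImplicit false

namespace Pool.Agent.Lib.MP_23961f_co.AC

open Pool.Agent.Lib.MP_23961f_co.K

section

variable {V : Type*} [Fintype V]

omit [Fintype V] in
open Classical in
theorem fst_eq_some_iff {G : SimpleGraph V} {I : List V} {v w : V} :
    fst G I v = some w ↔ G.Adj v w ∧ ∃ L₁ L₂, I = L₁ ++ w :: L₂ ∧ ∀ k ∈ L₁, ¬ G.Adj v k := by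
  unfold fst
  rw [List.find?_eq_some_iff_append]
  constructor
  · rintro ⟨h1, L₁, L₂, h2, h3⟩
    refine ⟨of_decide_eq_true h1, L₁, L₂, h2, fun k hk hadj => ?_⟩
    have h4 := h3 k hk
    simp [hadj] at h4
  · rintro ⟨h1, L₁, L₂, h2, h3⟩
    refine ⟨decide_eq_true h1, L₁, L₂, h2, fun k hk => ?_⟩
    simp [h3 k hk]

open Classical in
/-- One round costs one dimension. -/
theorem rep_of_roundL {G : SimpleGraph V} {I : List V} {k : ℕ}
    (hI : I.Pairwise (fun a b => ¬ G.Adj a b)) (h : Rep (roundL G I).Adj k) :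
    Rep G.Adj (k + 1) := by
  have hsym : Std.Symm (fun a b => ¬ G.Adj a b) := ⟨fun a b h h' => h h'.symm⟩
  have hI' : ∀ a ∈ I, ∀ b ∈ I, ¬ G.Adj a b := by
    intro a ha b hb
    by_cases hab : a = b
    · subst hab
      exact fun h => h.ne rfl
    · exact hI.forall ha hb hab
  have hR : RoundData G.Adj (fun v => v ∈ I) (fun v => (fst G I v).isSome = true)
      (fun v => (fst G I v).getD v) (fun v => I.idxOf v) := by
    refine ⟨fun a b ha hb => hI' a ha b hb, ?_, ?_, ?_⟩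
    · intro w hw
      obtain ⟨k, hk⟩ := Option.isSome_iff_exists.1 hw
      show (fst G I w).getD w ∈ I
      rw [hk]
      exact (fst_eq_some hk).1
    · intro w hw
      obtain ⟨k, hk⟩ := Option.isSome_iff_exists.1 hw
      show G.Adj w ((fst G I w).getD w)
      rw [hk]
      exact (fst_eq_some hk).2
    · intro w hw k' hk' hadj hne
      obtain ⟨k, hk⟩ := Option.isSome_iff_exists.1 hw
      have h1 : (fst G I w).getD w = k := by rw [hk]; rfl
      show I.idxOf ((fst G I w).getD w) < I.idxOf k'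
      rw [h1]
      exact fst_first hk hk' hadj (fun h2 => hne (h2.trans h1.symm))
  refine rep_round (fun v w h => h.symm) (fun v h => h.ne rfl) hR ?_
  obtain ⟨u, hu1, hu2⟩ := h
  have hsub : ∀ v w, rest G.Adj (fun v => (fst G I v).isSome = true)
      (fun v => (fst G I v).getD v) v w → (roundL G I).Adj v w := by
    rintro v w ⟨h1, h2, h3⟩
    refine ⟨h1, fun h4 => h2 ⟨?_, ?_⟩, fun h4 => h3 ⟨?_, ?_⟩⟩
    · show (fst G I v).isSome = true
      rw [h4]; rfl
    · show (fst G I v).getD v = w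
      rw [h4]; rfl
    · show (fst G I w).isSome = true
      rw [h4]; rfl
    · show (fst G I w).getD w = v
      rw [h4]; rfl
  exact ⟨u, fun v w h => hu1 v w (hsub v w h), hu2.mono hsub⟩

/-- Of any two non-adjacent vertices of `S` one has at least `a` neighbours in `S`, and
`a < |S|`. -/
def DegC (G : SimpleGraph V) (a : ℕ) : Prop :=
  ∃ S : Finset V, a < S.card ∧ ∀ v ∈ S, ∀ w ∈ S, v ≠ w → ¬ G.Adj v w →
    a ≤ Set.ncard {x | x ∈ S ∧ G.Adj v x} ∨ a ≤ Set.ncard {x | x ∈ S ∧ G.Adj w x}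

theorem cov_of_degC {G : SimpleGraph V} {a : ℕ} (h : DegC G a) : Cov G a := by
  classical
  obtain ⟨S, ha, hS⟩ := h
  have hgood : ∀ v ∈ S, a ≤ Set.ncard {x | x ∈ S ∧ G.Adj v x} → Good G S ∅ a {v} := by
    intro v hv hd
    refine ⟨?_, ?_, ?_⟩
    · intro x hx
      rw [Finset.mem_singleton] at hx
      subst hx
      exact hv
    · intro x hx _ y hy _ hxy
      rw [Finset.mem_singleton] at hx hy
      exact absurd (hx.trans hy.symm) hxy
    · have h1 : Set.ncard {x | x ∈ ({v} : Finset V) ∧ x ∉ (∅ : Finset V)} = 1 := by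
        rw [Set.ncard_eq_one]
        refine ⟨v, ?_⟩
        ext x
        simp
      have h2 : Set.ncard {x | x ∈ S ∧ G.Adj v x} ≤ Set.ncard {w | w ∈ S ∧
          w ∉ ({v} : Finset V) ∧ ∀ y ∈ ({v} : Finset V), G.Adj y w} := by
        refine Set.ncard_le_ncard ?_ (Set.toFinite _)
        rintro x ⟨hx, hvx⟩
        refine ⟨hx, ?_, ?_⟩
        · rw [Finset.mem_singleton]
          exact hvx.ne'
        · intro y hy
          rw [Finset.mem_singleton] at hy
          rw [hy]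
          exact hvx
      omega
  refine ⟨S, ∅, ha, fun v hv w hw hvw hadj => ?_⟩
  rcases hS v hv w hw hvw hadj with h1 | h1
  · exact Or.inl ⟨{v}, Finset.mem_singleton_self _, hgood v hv h1⟩
  · exact Or.inr ⟨{w}, Finset.mem_singleton_self _, hgood w hw h1⟩

/-- Certificates. -/
inductive CertO : ℕ → SimpleGraph V → Prop
  | deg (a : ℕ) (G : SimpleGraph V) (h : DegC G a) : CertO a G
  | col (a : ℕ) (G : SimpleGraph V) {m : ℕ} (c : V → Fin m) (d : Fin m → ℕ) (o : V → ℕ)
      (ho : Function.Injective o) (h : WO Gᶜ c d o) (hd : a + 1 + ∑ r, d r ≤ Fintype.card V) :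
      CertO a G
  | shift (a : ℕ) (G : SimpleGraph V) (z z' : V) (h : G.Adj z z') (h' : CertO a (esh G z z')) :
      CertO a G
  | round (a : ℕ) (G : SimpleGraph V) (L : List V) (hL : L.Pairwise (fun a b => ¬ Gᶜ.Adj a b))
      (h' : CertO (a + 1) (roundL Gᶜ L)ᶜ) : CertO a G

theorem rep_of_certO {G : SimpleGraph V} {a : ℕ} (h : CertO a G) :
    ∃ k, a + 1 + k ≤ Fintype.card V ∧ Rep Gᶜ.Adj k := by
  induction h with
  | deg a G h =>
    have hc := cov_of_degC h
    refine ⟨_, ?_, rep_of_kill _ _ (kill_of_cov hc)⟩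
    obtain ⟨S, haS, -⟩ := h
    have h1 := Finset.card_le_univ S
    omega
  | col a G c d o ho h hd => exact ⟨_, hd, rep_of_wo ho h⟩
  | shift a G z z' h h' ih =>
    obtain ⟨k, hk, hr⟩ := ih
    exact ⟨k, hk, rep_of_esh h hr⟩
  | round a G L hL h' ih =>
    obtain ⟨k, hk, hr⟩ := ih
    rw [compl_compl] at hr
    exact ⟨k + 1, by omega, rep_of_roundL hL hr⟩

theorem nul_of_certO {G : SimpleGraph V} {a : ℕ} (h : CertO a G) : Nul G a := by
  obtain ⟨k, hk, hr⟩ := rep_of_certO h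
  obtain ⟨A, hA1, hA2, hA3, hA4⟩ := exists_matrix_of_rep Gᶜ hr
  rw [compl_compl] at hA2 hA3
  exact ⟨A, hA1, hA2, hA3, by omega⟩

end

/-- Positive semidefinite matrices with the strong Arnold property for a graph and its complement
from certificates. -/
theorem gcc_of_certO {n : ℕ} (G : SimpleGraph (Fin n)) (a b : ℕ) (ha : CertO a G)
    (hb : CertO b Gᶜ) :
    ∃ (A B : Matrix (Fin n) (Fin n) ℝ),
      A.PosSemidef ∧
      (∀ i j, i ≠ j → (A i j ≠ 0 ↔ G.Adj i j)) ∧
      (∀ X : Matrix (Fin n) (Fin n) ℝ, X.IsSymm → (∀ i, X i i = 0) →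
          (∀ i j, G.Adj i j → X i j = 0) → A * X = 0 → X = 0) ∧
      B.PosSemidef ∧
      (∀ i j, i ≠ j → (B i j ≠ 0 ↔ Gᶜ.Adj i j)) ∧
      (∀ X : Matrix (Fin n) (Fin n) ℝ, X.IsSymm → (∀ i, X i i = 0) →
          (∀ i j, Gᶜ.Adj i j → X i j = 0) → B * X = 0 → X = 0) ∧
      b + max a (min 3 (n - 2 - b)) ≤ (n - A.rank) + (n - B.rank) := by
  obtain ⟨x, y, ⟨A, hA1, hA2, hA3, hA4⟩, ⟨B, hB1, hB2, hB3, hB4⟩, hxy⟩ :=
    exists_nul (nul_of_certO ha) (nul_of_certO hb)
  rw [Fintype.card_fin] at hA4 hB4 hxy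
  exact ⟨A, B, hA1, hA2, hA3, hB1, hB2, hB3, by omega⟩

end Pool.Agent.Lib.MP_23961f_co.AC
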