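import Pool.Agent.Lib.MP_23961f_co.AC.Generic

/-!
Ordered weighted colourings. `WO G c d o`: for any colours `r`, `s` every non-empty set `U` of
vertices coloured `r` or `s` contains a vertex `v` such that, `t` being the other colour, for every
`t`-coloured neighbour `b` of `v` in `U` at most `d t` vertices of colour `t` are neighbours of `b`
before `b` or neighbours of `v` in `U` not after `b`.
Main theorem `rep_of_wo`: an orthogonal configuration without stress in dimension `∑ d`.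
-/

set_option autoImplicit false

open scoped InnerProductSpace

namespace Pool.Agent.Lib.MP_23961f_co.AC

open Pool.Agent.Lib.MP_23961f_co.K

variable {V : Type*} [Fintype V]

/-- An ordered weighted colouring. -/
def WO {m : ℕ} (G : SimpleGraph V) (c : V → Fin m) (d : Fin m → ℕ) (o : V → ℕ) : Prop :=
  ∀ r s, ∀ U : Finset V, U.Nonempty → (∀ v ∈ U, c v = r ∨ c v = s) →
    ∃ v ∈ U, ∃ t, ((c v = r ∧ t = s) ∨ (c v = s ∧ t = r)) ∧
      ∀ b ∈ U, G.Adj v b → c b = t →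
        Set.ncard {x | c x = t ∧ ((G.Adj x b ∧ o x < o b) ∨ (x ∈ U ∧ G.Adj v x ∧ o x ≤ o b))} ≤ d t

/-- the space of the configuration -/
abbrev Sp {m : ℕ} (d : Fin m → ℕ) : Type := PiLp 2 (fun r : Fin m => EuclideanSpace ℝ (Fin (d r)))

/-- the vector of `v`, in the block of the colour of `v` -/
noncomputable def ovec {m : ℕ} (c : V → Fin m) (d : Fin m → ℕ)
    (u : ∀ r : Fin m, V → EuclideanSpace ℝ (Fin (d r))) (v : V) : Sp d :=
  WithLp.toLp 2 (fun r => if c v = r then u r v else 0)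

omit [Fintype V] in
theorem ovec_apply {m : ℕ} (c : V → Fin m) (d : Fin m → ℕ)
    (u : ∀ r : Fin m, V → EuclideanSpace ℝ (Fin (d r))) (v : V) (r : Fin m) :
    ovec c d u v r = if c v = r then u r v else 0 := rfl

omit [Fintype V] in
theorem inner_ovec {m : ℕ} {c : V → Fin m} {d : Fin m → ℕ}
    {u : ∀ r : Fin m, V → EuclideanSpace ℝ (Fin (d r))} {v w : V}
    (h : ∀ r, c v = r → c w = r → ⟪u r v, u r w⟫_ℝ = 0) : ⟪ovec c d u v, ovec c d u w⟫_ℝ = 0 := by
  rw [PiLp.inner_apply]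
  refine Finset.sum_eq_zero fun r _ => ?_
  rw [ovec_apply, ovec_apply]
  by_cases h1 : c v = r
  · by_cases h2 : c w = r
    · rw [if_pos h1, if_pos h2]
      exact h r h1 h2
    · rw [if_neg h2, inner_zero_right]
  · rw [if_neg h1, inner_zero_left]

theorem sFree_ovec {m : ℕ} {G : SimpleGraph V} {c : V → Fin m} {d : Fin m → ℕ} {o : V → ℕ}
    {u : ∀ r : Fin m, V → EuclideanSpace ℝ (Fin (d r))}
    (hu : ∀ t, ∀ B : Set V, Tame (fun x y => G.Adj x y ∧ c x = t ∧ c y = t) o (d t) B →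
      LinearIndepOn ℝ (u t) B) (h : WO G c d o) : SFree G.Adj (ovec c d u) := by
  classical
  intro X hXs hX0 hrow
  -- the row sums in the blocks
  have hblock : ∀ v t,
      ∑ w ∈ Finset.univ.filter (fun w => c w = t ∧ X v w ≠ 0), X v w • u t w = 0 := by
    intro v t
    have h1 := congrArg (fun q : Sp d => q t) (hrow v)
    simp only [WithLp.ofLp_sum, WithLp.ofLp_smul, Finset.sum_apply, Pi.smul_apply, ovec_apply,
      WithLp.ofLp_zero, Pi.zero_apply] at h1
    refine Eq.trans ?_ h1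
    rw [Finset.sum_filter]
    refine Finset.sum_congr rfl fun w _ => ?_
    by_cases h2 : c w = t
    · by_cases h3 : X v w = 0
      · simp [h3]
      · simp [h2, h3]
    · simp [h2]
  -- a row with tame support in a block vanishes there
  have hzero : ∀ v t, ∀ U : Finset V, (∀ w, c w = t → X v w ≠ 0 → w ∈ U) →
      (∀ b ∈ U, G.Adj v b → c b = t →
        Set.ncard {x | c x = t ∧ ((G.Adj x b ∧ o x < o b) ∨
          (x ∈ U ∧ G.Adj v x ∧ o x ≤ o b))} ≤ d t) → ∀ w, c w = t → X v w = 0 := by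
    intro v t U hU htame w hw
    by_contra hne
    have hadj : ∀ y, X v y ≠ 0 → G.Adj v y := by
      intro y hy
      by_contra h1
      exact hy (hX0 v y h1)
    let F : Finset V := Finset.univ.filter (fun w => c w = t ∧ X v w ≠ 0)
    have hF : ∀ y, y ∈ F ↔ c y = t ∧ X v y ≠ 0 := fun y => by simp [F]
    have hT : Tame (fun x y => G.Adj x y ∧ c x = t ∧ c y = t) o (d t) (F : Set V) := by
      intro b hb
      have hb' := (hF b).1 (Finset.mem_coe.1 hb)
      refine le_trans (Set.ncard_le_ncard ?_ (Set.toFinite _))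
        (htame b (hU b hb'.1 hb'.2) (hadj b hb'.2) hb'.1)
      rintro x (⟨⟨h1, h2, _⟩, h4⟩ | ⟨h1, h2⟩)
      · exact ⟨h2, Or.inl ⟨h1, h4⟩⟩
      · have h3 := (hF x).1 (Finset.mem_coe.1 h1)
        exact ⟨h3.1, Or.inr ⟨hU x h3.1 h3.2, hadj x h3.2, h2⟩⟩
    exact hne (linearIndepOn_finset_iff.1 (hu t _ hT) (X v) (hblock v t) w
      ((hF w).2 ⟨hw, hne⟩))
  intro v w
  by_contra hvw
  let U : Finset V := Finset.univ.filter (fun y =>
    (c y = c v ∧ ∃ z, c z = c w ∧ X y z ≠ 0) ∨ (c y = c w ∧ ∃ z, c z = c v ∧ X y z ≠ 0))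
  have hU : ∀ y, y ∈ U ↔ (c y = c v ∧ ∃ z, c z = c w ∧ X y z ≠ 0) ∨
      (c y = c w ∧ ∃ z, c z = c v ∧ X y z ≠ 0) := fun y => by simp [U]
  obtain ⟨y, hy, t, ht, hd⟩ := h (c v) (c w) U ⟨v, (hU v).2 (Or.inl ⟨rfl, w, rfl, hvw⟩)⟩
    (fun y hy => by
      rcases (hU y).1 hy with h1 | h1
      · exact Or.inl h1.1
      · exact Or.inr h1.1)
  rcases ht with ⟨hc, rfl⟩ | ⟨hc, rfl⟩
  · -- `y` has the colour of `v`, the other colour is the one of `w`
    have hz : ∃ z, c z = c w ∧ X y z ≠ 0 := by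
      rcases (hU y).1 hy with ⟨_, z, hz, hyz⟩ | ⟨h1, z, hz, hyz⟩
      · exact ⟨z, hz, hyz⟩
      · exact ⟨z, by rw [hz, ← hc, h1], hyz⟩
    obtain ⟨z, hz, hyz⟩ := hz
    refine hyz (hzero y (c w) U ?_ hd z hz)
    intro x hx hyx
    refine (hU x).2 (Or.inr ⟨hx, y, hc, ?_⟩)
    rwa [hXs x y]
  · have hz : ∃ z, c z = c v ∧ X y z ≠ 0 := by
      rcases (hU y).1 hy with ⟨h1, z, hz, hyz⟩ | ⟨_, z, hz, hyz⟩
      · exact ⟨z, by rw [hz, ← hc, h1], hyz⟩
      · exact ⟨z, hz, hyz⟩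
    obtain ⟨z, hz, hyz⟩ := hz
    refine hyz (hzero y (c v) U ?_ hd z hz)
    intro x hx hyx
    refine (hU x).2 (Or.inl ⟨hx, y, hc, ?_⟩)
    rwa [hXs x y]

/-- An ordered weighted colouring gives an orthogonal configuration without stress. -/
theorem rep_of_wo {m : ℕ} {G : SimpleGraph V} {c : V → Fin m} {d : Fin m → ℕ} {o : V → ℕ}
    (ho : Function.Injective o) (h : WO G c d o) : Rep G.Adj (∑ r, d r) := by
  have h1 : ∀ t : Fin m, ∃ u : V → EuclideanSpace ℝ (Fin (d t)),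
      (∀ v w, (G.Adj v w ∧ c v = t ∧ c w = t) → ⟪u v, u w⟫_ℝ = 0) ∧
      ∀ B : Set V, Tame (fun x y => G.Adj x y ∧ c x = t ∧ c y = t) o (d t) B →
        LinearIndepOn ℝ u B := fun t =>
    exists_seq (S := fun x y => G.Adj x y ∧ c x = t ∧ c y = t)
      (fun v w h => ⟨h.1.symm, h.2.2, h.2.1⟩) (fun v h => h.1.ne rfl) ho (d t)
  choose u hu1 hu2 using h1
  refine rep_of (E := Sp d) (u := ovec c d u) ?_ ?_ (sFree_ovec hu2 h)
  · rw [LinearEquiv.finrank_eq (WithLp.linearEquiv 2 ℝ _), Module.finrank_pi_fintype]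
    simp
  · intro v w hvw
    exact inner_ovec fun r hr hr' => hu1 r v w ⟨hvw, hr, hr'⟩

end Pool.Agent.Lib.MP_23961f_co.AC
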