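import Pool.Agent.Lib.MP_23961f_co.AC.Generic

/-!
Either the complement of `G` has an orthogonal configuration without stress in dimension
`n - (K + 1)`, or `G` has one in dimension `2 * K - 3` (`K ≥ 3`).
A vertex `v` with less than `K` neighbours is shifted to a neighbour `a`; in the new graph `a` is
adjacent to all other neighbours of `v`, so the neighbours of `v` are independent as soon as all sets
of `K - 2` vertices are.
Main theorem `exists_deficit`.
-/

set_option autoImplicit false

open scoped InnerProductSpace

namespace Pool.Agent.Lib.MP_23961f_co.AC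

open Pool.Agent.Lib.MP_23961f_co.K

variable {V : Type*} [Fintype V]

open Classical in
theorem exists_star {K : ℕ} (hK : 3 ≤ K) : ∀ (m : ℕ) (U : Finset V) (G : SimpleGraph V),
    U.card = m → ¬ Rep Gᶜ.Adj (Fintype.card V - (K + 1)) →
    ∃ u : V → EuclideanSpace ℝ (Fin (2 * K - 3)),
      (∀ v ∈ U, ∀ w ∈ U, G.Adj v w → ⟪u v, u w⟫_ℝ = 0) ∧
      SFree (fun v w => v ∈ U ∧ w ∈ U ∧ G.Adj v w) u ∧
      ∀ B : Finset V, B ⊆ U → B.card ≤ K - 2 → LinearIndepOn ℝ u (B : Set V) := by
  intro m
  induction m with
  | zero =>
    intro U G hU _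
    rw [Finset.card_eq_zero] at hU
    subst hU
    refine ⟨fun _ => 0, by simp, ?_, ?_⟩
    · intro X _ h2 _ v w
      exact h2 v w (fun h => absurd h.1 (Finset.notMem_empty _))
    · intro B hB _
      rw [Finset.subset_empty] at hB
      subst hB
      rw [Finset.coe_empty]
      exact linearIndepOn_empty _ _
  | succ m ih =>
    intro U G hU hG
    have hne : U.Nonempty := Finset.card_pos.1 (by omega)
    obtain ⟨v, hv, hdv⟩ : ∃ v ∈ U, (U.filter (fun w => G.Adj v w)).card < K := by
      by_contra hno
      push Not at hno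
      exact hG (rep_of_min_degree G U hne K hno)
    let N : Finset V := U.filter (fun w => G.Adj v w)
    have hN : ∀ w, w ∈ N ↔ w ∈ U ∧ G.Adj v w := fun w => Finset.mem_filter
    -- the graph in which a neighbour of `v` is adjacent to all others
    obtain ⟨G1, hG1, hle, hstar⟩ : ∃ G1 : SimpleGraph V,
        ¬ Rep G1ᶜ.Adj (Fintype.card V - (K + 1)) ∧
        (∀ a ∈ U.erase v, ∀ b ∈ U.erase v, G.Adj a b → G1.Adj a b) ∧
        (N = ∅ ∨ ∃ a ∈ N, ∀ b ∈ N, b ≠ a → G1.Adj a b) := by
      by_cases h1 : N = ∅
      · exact ⟨G, hG, fun _ _ _ _ h => h, Or.inl h1⟩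
      · obtain ⟨a, ha⟩ := Finset.nonempty_iff_ne_empty.2 h1
        have ha' := (hN a).1 ha
        refine ⟨esh G a v, fun h => hG (rep_of_esh ha'.2.symm h), ?_, Or.inr ⟨a, ha, ?_⟩⟩
        · intro x hx y hy hxy
          have hxv : x ≠ v := (Finset.mem_erase.1 hx).1
          have hyv : y ≠ v := (Finset.mem_erase.1 hy).1
          refine ⟨hxy.ne, ?_⟩
          by_cases hxa : x = a
          · subst hxa
            exact Or.inr (Or.inr (Or.inl ⟨rfl, hyv, Or.inl hxy⟩))
          · by_cases hya : y = a
            · subst hya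
              exact Or.inr (Or.inr (Or.inr (Or.inl ⟨rfl, hxv, Or.inl hxy.symm⟩)))
            · exact Or.inr (Or.inr (Or.inr (Or.inr (Or.inr (Or.inr
                ⟨hxa, hxv, hya, hyv, hxy⟩)))))
        · intro b hb hba
          have hb' := (hN b).1 hb
          exact ⟨Ne.symm hba, Or.inr (Or.inr (Or.inl ⟨rfl, hb'.2.ne', Or.inr hb'.2⟩))⟩
    obtain ⟨u, hu1, hu2, hu3⟩ := ih (U.erase v) G1
      (by rw [Finset.card_erase_of_mem hv]; omega) hG1
    have hNU : N ⊆ U.erase v := by
      intro w hw
      have h1 := (hN w).1 hw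
      exact Finset.mem_erase.2 ⟨h1.2.ne', h1.1⟩
    have hNcard : N.card < K := hdv
    -- the neighbours of `v` are independent
    have hNind : LinearIndepOn ℝ u (N : Set V) := by
      rcases hstar with h1 | ⟨a, ha, h1⟩
      · rw [h1, Finset.coe_empty]
        exact linearIndepOn_empty _ _
      · have h2 : (N : Set V) = insert a ((N.erase a : Finset V) : Set V) := by
          rw [← Finset.coe_insert, Finset.insert_erase ha]
        rw [h2, linearIndepOn_insert (by simp)]
        refine ⟨hu3 _ ((Finset.erase_subset _ _).trans hNU) ?_, ?_⟩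
        · rw [Finset.card_erase_of_mem ha]
          omega
        · intro h3
          have h4 : u a ∈ (Submodule.span ℝ (u '' ((N.erase a : Finset V) : Set V)))ᗮ := by
            rw [Submodule.mem_orthogonal]
            intro y hy
            induction hy using Submodule.span_induction with
            | mem y hy =>
              obtain ⟨b, hb, rfl⟩ := hy
              have hb' := Finset.mem_erase.1 (Finset.mem_coe.1 hb)
              exact hu1 b (hNU hb'.2) a (hNU ha) (h1 b hb'.2 hb'.1).symm
            | zero => exact inner_zero_left _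
            | add y z _ _ hy hz => rw [inner_add_left, hy, hz, add_zero]
            | smul r y _ hy => rw [inner_smul_left, hy, mul_zero]
          have h5 : ⟪u a, u a⟫_ℝ = 0 := (Submodule.mem_orthogonal _ _).1 h4 _ h3
          have h6 : u a = 0 := inner_self_eq_zero.1 h5
          have h7 : LinearIndepOn ℝ u (({a} : Finset V) : Set V) :=
            hu3 {a} (Finset.singleton_subset_iff.2 (hNU ha)) (by rw [Finset.card_singleton]; omega)
          rw [Finset.coe_singleton] at h7
          exact h7.ne_zero (Set.mem_singleton a) h6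
    -- the new vector
    let s : Finset (Finset V) := (U.erase v).powerset.filter (fun B => B.card ≤ K - 3)
    have havoid : ∀ B ∈ s, ¬ (Submodule.span ℝ (u '' (N : Set V)))ᗮ ≤
        Submodule.span ℝ (u '' (B : Set V)) := by
      intro B hB hle2
      have hB2 := (Finset.mem_filter.1 hB).2
      have h1 := Submodule.finrank_mono hle2
      have h2 := Submodule.finrank_add_finrank_orthogonal (Submodule.span ℝ (u '' (N : Set V)))
      rw [finrank_euclideanSpace_fin] at h2
      have h3 : ∀ T : Finset V, Module.finrank ℝ (Submodule.span ℝ (u '' (T : Set V))) ≤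
          T.card := by
        intro T
        have := finrank_span_finset_le_card (R := ℝ) (T.image u)
        rw [Finset.coe_image] at this
        exact this.trans Finset.card_image_le
      have h4 := h3 N
      have h5 := h3 B
      omega
    obtain ⟨z, hzN, hz⟩ := exists_avoid _ s _ havoid
    have hupd : ∀ w, w ≠ v → Function.update u v z w = u w := fun w hw =>
      Function.update_of_ne hw _ _
    have hzN' : ∀ w ∈ N, ⟪u w, z⟫_ℝ = 0 := by
      intro w hw
      exact Submodule.inner_right_of_mem_orthogonal
        (K := Submodule.span ℝ (u '' (N : Set V)))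
        (Submodule.subset_span ⟨w, Finset.mem_coe.2 hw, rfl⟩) hzN
    refine ⟨Function.update u v z, ?_, ?_, ?_⟩
    · intro x hx y hy hxy
      by_cases hxv : x = v
      · subst hxv
        rw [Function.update_self, hupd y hxy.ne', real_inner_comm]
        exact hzN' y ((hN y).2 ⟨hy, hxy⟩)
      · by_cases hyv : y = v
        · subst hyv
          rw [Function.update_self, hupd x hxv]
          exact hzN' x ((hN x).2 ⟨hx, hxy.symm⟩)
        · rw [hupd x hxv, hupd y hyv]
          have h1 := Finset.mem_erase.2 ⟨hxv, hx⟩
          have h2 := Finset.mem_erase.2 ⟨hyv, hy⟩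
          exact hu1 x h1 y h2 (hle x h1 y h2 hxy)
    · intro X hXs hX0 hrow
      -- the row of `v`
      have hXv : ∀ w, X v w = 0 := by
        have h1 : ∀ w, w ∉ N → X v w = 0 := by
          intro w hw
          refine hX0 v w fun h => hw ((hN w).2 ⟨h.2.1, h.2.2⟩)
        have h2 : ∑ w ∈ N, X v w • u w = 0 := by
          refine Eq.trans ?_ (hrow v)
          refine Eq.trans (Finset.sum_congr rfl fun w hw => ?_)
            (Finset.sum_subset (Finset.subset_univ N) fun w _ hw => by rw [h1 w hw, zero_smul])
          rw [hupd w ((hN w).1 hw).2.ne']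
        intro w
        by_cases hw : w ∈ N
        · exact linearIndepOn_finset_iff.1 hNind (X v) h2 w hw
        · exact h1 w hw
      refine hu2 X hXs ?_ ?_
      · intro x y hxy
        by_cases hxv : x = v
        · subst hxv
          exact hXv y
        · by_cases hyv : y = v
          · subst hyv
            rw [hXs]
            exact hXv x
          · refine hX0 x y fun h => hxy ?_
            have h1 := Finset.mem_erase.2 ⟨hxv, h.1⟩
            have h2 := Finset.mem_erase.2 ⟨hyv, h.2.1⟩
            exact ⟨h1, h2, hle x h1 y h2 h.2.2⟩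
      · intro x
        refine Eq.trans (Finset.sum_congr rfl fun w _ => ?_) (hrow x)
        by_cases hwv : w = v
        · subst hwv
          rw [hXs x w, hXv x, zero_smul, zero_smul]
        · rw [hupd w hwv]
    · intro B hB hBK
      by_cases hvB : v ∈ B
      · have h1 : (B : Set V) = insert v ((B.erase v : Finset V) : Set V) := by
          rw [← Finset.coe_insert, Finset.insert_erase hvB]
        have hcard : (B.erase v).card = B.card - 1 := Finset.card_erase_of_mem hvB
        have hsub : B.erase v ⊆ U.erase v := Finset.erase_subset_erase _ hB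
        have hcongr : ∀ w ∈ ((B.erase v : Finset V) : Set V),
            Function.update u v z w = u w := fun w hw =>
          hupd w (Finset.mem_erase.1 (Finset.mem_coe.1 hw)).1
        rw [h1, linearIndepOn_insert (by simp)]
        refine ⟨(hu3 _ hsub (by omega)).congr fun w hw => (hcongr w hw).symm, ?_⟩
        rw [Function.update_self, Set.image_congr hcongr]
        exact hz _ (Finset.mem_filter.2 ⟨Finset.mem_powerset.2 hsub, by omega⟩)
      · refine (hu3 B ?_ hBK).congr fun w hw => (hupd w ?_).symm
        · intro w hw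
          refine Finset.mem_erase.2 ⟨?_, hB hw⟩
          rintro rfl
          exact hvB hw
        · rintro rfl
          exact hvB (Finset.mem_coe.1 hw)

/-- The alternative for `K ≥ 3`. -/
theorem rep_or_rep {K : ℕ} (hK : 3 ≤ K) (G : SimpleGraph V) :
    Rep Gᶜ.Adj (Fintype.card V - (K + 1)) ∨ Rep G.Adj (2 * K - 3) := by
  classical
  by_cases h : Rep Gᶜ.Adj (Fintype.card V - (K + 1))
  · exact Or.inl h
  · obtain ⟨u, h1, h2, -⟩ := exists_star hK _ Finset.univ G rfl h
    refine Or.inr ⟨u, fun v w hvw => h1 v (Finset.mem_univ _) w (Finset.mem_univ _) hvw, ?_⟩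
    exact h2.mono fun v w hvw => ⟨Finset.mem_univ _, Finset.mem_univ _, hvw⟩

theorem nul_zero [Nonempty V] (G : SimpleGraph V) : Nul G 0 := by
  refine nul_of_cert (Cert.cov G ⟨{Classical.arbitrary V}, ∅, by simp, ?_⟩)
  intro v hv w hw hvw
  rw [Finset.mem_singleton] at hv hw
  exact absurd (hv.trans hw.symm) hvw

/-- One side: `n ≤ a + b + max 2 a`. -/
theorem exists_one_side [Nonempty V] (G : SimpleGraph V) :
    ∃ a b, Nul G a ∧ Nul Gᶜ b ∧ Fintype.card V ≤ a + b + max 2 a := by
  classical
  have hn : 0 < Fintype.card V := Fintype.card_pos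
  -- the largest value for which the complement has a configuration
  have h0 : Rep Gᶜ.Adj (Fintype.card V - (0 + 1)) := by
    refine (K.rep_of_cert (a := 0) (Cert.cov G ⟨{Classical.arbitrary V}, ∅, by simp, ?_⟩)).1
    intro v hv w hw hvw
    rw [Finset.mem_singleton] at hv hw
    exact absurd (hv.trans hw.symm) hvw
  obtain ⟨a, ha1, ha2, ha3⟩ : ∃ a, a ≤ Fintype.card V - 1 ∧
      Rep Gᶜ.Adj (Fintype.card V - (a + 1)) ∧
      (a = Fintype.card V - 1 ∨ ¬ Rep Gᶜ.Adj (Fintype.card V - (a + 1 + 1))) := by
    have key : ∀ m, ∀ a, a + m = Fintype.card V - 1 → Rep Gᶜ.Adj (Fintype.card V - (a + 1)) →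
        ∃ a, a ≤ Fintype.card V - 1 ∧ Rep Gᶜ.Adj (Fintype.card V - (a + 1)) ∧
          (a = Fintype.card V - 1 ∨ ¬ Rep Gᶜ.Adj (Fintype.card V - (a + 1 + 1))) := by
      intro m
      induction m with
      | zero =>
        intro a h1 h2
        exact ⟨a, by omega, h2, Or.inl (by omega)⟩
      | succ m ih =>
        intro a h1 h2
        by_cases h3 : Rep Gᶜ.Adj (Fintype.card V - (a + 1 + 1))
        · exact ih (a + 1) (by omega) h3
        · exact ⟨a, by omega, h2, Or.inr h3⟩
    exact key (Fintype.card V - 1) 0 (by omega) h0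
  have hA : Nul G a := by
    obtain ⟨A, h1, h2, h3, h4⟩ := nul_of_rep ha2
    exact ⟨A, h1, h2, h3, by omega⟩
  rcases ha3 with h | h
  · exact ⟨a, 0, hA, nul_zero _, by omega⟩
  · by_cases ha : a ≤ 1
    · rcases rep_or_kill (K := a + 1) (by omega) (by omega) G with h1 | h1
      · exact absurd h1 h
      · exact ⟨a, _, hA, nul_of_kill h1, by omega⟩
    · rcases rep_or_rep (K := a + 1) (by omega) G with h1 | h1
      · exact absurd h1 h
      · obtain ⟨B, hB1, hB2, hB3, hB4⟩ := exists_matrix_of_rep G h1
        exact ⟨a, Fintype.card V - (2 * (a + 1) - 3 + 1), hA, ⟨B, hB1, hB2, hB3, by omega⟩,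
          by omega⟩

/-- Both sides. -/
theorem exists_deficit [Nonempty V] (G : SimpleGraph V) :
    ∃ a b, Nul G a ∧ Nul Gᶜ b ∧ Fintype.card V ≤ a + b + max 2 (min a b) := by
  obtain ⟨a, b, ha, hb, hab⟩ := exists_one_side G
  obtain ⟨b', a', hb', ha', hab'⟩ := exists_one_side Gᶜ
  rw [compl_compl] at ha'
  have hA : Nul G (max a a') := by
    rcases le_total a a' with h | h
    · rw [max_eq_right h]
      exact ha'
    · rw [max_eq_left h]
      exact ha
  have hB : Nul Gᶜ (max b b') := by
    rcases le_total b b' with h | h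
    · rw [max_eq_right h]
      exact hb'
    · rw [max_eq_left h]
      exact hb
  refine ⟨_, _, hA, hB, ?_⟩
  rcases le_total (max a a') (max b b') with h | h
  · rw [min_eq_left h]
    omega
  · rw [min_eq_right h]
    omega

end Pool.Agent.Lib.MP_23961f_co.AC
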