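import Pool.Agent.Lib.MP_23961f_co.K.Cover

/-!
Weighted acyclic colourings. `WAC G c d`: a proper colouring `c` with weights `d` such that for any
two colours `r ≠ s` every non-empty set of vertices coloured `r` or `s` contains a vertex whose
number of neighbours in the set is at most the weight of the other one of the two colours.
Main theorem `rep_of_wac`: the vectors on the moment curves of orthogonal blocks carry no stress.
-/

set_option autoImplicit false

open scoped InnerProductSpace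

namespace Pool.Agent.Lib.MP_23961f_co.AC

open Pool.Agent.Lib.MP_23961f_co.K

variable {V : Type*} [Fintype V]

/-- A weighted acyclic colouring. -/
def WAC {m : ℕ} (G : SimpleGraph V) (c : V → Fin m) (d : Fin m → ℕ) : Prop :=
  (∀ v w, G.Adj v w → c v ≠ c w) ∧
  ∀ r s, r ≠ s → ∀ U : Finset V, U.Nonempty → (∀ v ∈ U, c v = r ∨ c v = s) →
    ∃ v ∈ U, (c v = r ∧ Set.ncard {w | w ∈ U ∧ G.Adj v w} ≤ d s) ∨
      (c v = s ∧ Set.ncard {w | w ∈ U ∧ G.Adj v w} ≤ d r)

open Polynomial in
omit [Fintype V] in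
/-- At most `D` points of the moment curve in dimension `D` are independent. -/
theorem vandermonde_zero {F : Finset V} {x : V → ℝ} (hx : Function.Injective x) {a : V → ℝ}
    {D : ℕ} (hF : F.card ≤ D) (h : ∀ i < D, ∑ w ∈ F, a w * x w ^ i = 0) : ∀ w ∈ F, a w = 0 := by
  classical
  intro w0 hw0
  let p : ℝ[X] := ∏ w ∈ F.erase w0, (X - C (x w))
  have hp : p.natDegree < D := by
    have h1 : p.natDegree = (F.erase w0).card := natDegree_finsetProd_X_sub_C_eq_card _ _
    rw [h1, Finset.card_erase_of_mem hw0]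
    have := Finset.card_pos.2 ⟨w0, hw0⟩
    omega
  have h1 : ∑ w ∈ F, a w * p.eval (x w) = 0 := by
    have h2 : ∀ w, a w * p.eval (x w) =
        ∑ i ∈ Finset.range D, p.coeff i * (a w * x w ^ i) := by
      intro w
      rw [eval_eq_sum_range' hp, Finset.mul_sum]
      refine Finset.sum_congr rfl fun i _ => ?_
      ring
    simp_rw [h2]
    rw [Finset.sum_comm]
    refine Finset.sum_eq_zero fun i hi => ?_
    rw [← Finset.mul_sum, h i (Finset.mem_range.1 hi), mul_zero]
  rw [Finset.sum_eq_single_of_mem w0 hw0] at h1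
  · have h3 : p.eval (x w0) ≠ 0 := by
      rw [eval_prod]
      refine Finset.prod_ne_zero_iff.2 fun w hw => ?_
      rw [eval_sub, eval_X, eval_C, sub_ne_zero]
      exact fun h4 => (Finset.mem_erase.1 hw).1 (hx h4.symm)
    exact (mul_eq_zero.1 h1).resolve_right h3
  · intro w hw hne
    have h3 : p.eval (x w) = 0 := by
      rw [eval_prod]
      refine Finset.prod_eq_zero (Finset.mem_erase.2 ⟨hne, hw⟩) ?_
      simp
    rw [h3, mul_zero]

/-- the vector of `v`: the point `x v` of the moment curve in the block of the colour of `v` -/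
noncomputable def vec {m : ℕ} (c : V → Fin m) (d : Fin m → ℕ) (x : V → ℝ) (v : V) :
    EuclideanSpace ℝ (Σ r : Fin m, Fin (d r)) :=
  WithLp.toLp 2 (fun p => if c v = p.1 then x v ^ (p.2 : ℕ) else 0)

omit [Fintype V] in
theorem vec_apply {m : ℕ} (c : V → Fin m) (d : Fin m → ℕ) (x : V → ℝ) (v : V)
    (p : Σ r : Fin m, Fin (d r)) :
    vec c d x v p = if c v = p.1 then x v ^ (p.2 : ℕ) else 0 := rfl

omit [Fintype V] in
theorem inner_vec {m : ℕ} {c : V → Fin m} {d : Fin m → ℕ} {x : V → ℝ} {v w : V}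
    (h : c v ≠ c w) : ⟪vec c d x v, vec c d x w⟫_ℝ = 0 := by
  rw [PiLp.inner_apply]
  refine Finset.sum_eq_zero fun p _ => ?_
  rw [vec_apply, vec_apply]
  by_cases h1 : c v = p.1
  · have h2 : ¬ c w = p.1 := fun h3 => h (h1.trans h3.symm)
    simp [h2]
  · simp [h1]

theorem sFree_vec {m : ℕ} {G : SimpleGraph V} {c : V → Fin m} {d : Fin m → ℕ} {x : V → ℝ}
    (hx : Function.Injective x) (h : WAC G c d) : SFree G.Adj (vec c d x) := by
  classical
  intro X hXs hX0 hrow
  -- the row sums in the blocks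
  have hblock : ∀ v s, ∀ i < d s,
      ∑ w ∈ Finset.univ.filter (fun w => c w = s ∧ X v w ≠ 0), X v w * x w ^ i = 0 := by
    intro v s i hi
    have h1 := congrArg (fun q : EuclideanSpace ℝ (Σ r : Fin m, Fin (d r)) => q ⟨s, ⟨i, hi⟩⟩)
      (hrow v)
    simp only [WithLp.ofLp_sum, WithLp.ofLp_smul, Finset.sum_apply, Pi.smul_apply, vec_apply,
      smul_eq_mul, WithLp.ofLp_zero, Pi.zero_apply] at h1
    refine Eq.trans ?_ h1
    rw [Finset.sum_filter]
    refine Finset.sum_congr rfl fun w _ => ?_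
    by_cases h2 : c w = s
    · by_cases h3 : X v w = 0
      · simp [h3]
      · simp [h2, h3]
    · simp [h2]
  -- a row with small support in a block vanishes there
  have hzero : ∀ v s, ∀ U : Finset V, (∀ w, c w = s → X v w ≠ 0 → w ∈ U) →
      Set.ncard {w | w ∈ U ∧ G.Adj v w} ≤ d s → ∀ w, c w = s → X v w = 0 := by
    intro v s U hU hcard w hw
    by_contra hne
    have hF : (Finset.univ.filter (fun w => c w = s ∧ X v w ≠ 0)).card ≤ d s := by
      refine le_trans ?_ hcard
      rw [← Set.ncard_coe_finset]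
      refine Set.ncard_le_ncard ?_ (Set.toFinite _)
      intro y hy
      have hy' := (Finset.mem_filter.1 (Finset.mem_coe.1 hy)).2
      refine ⟨hU y hy'.1 hy'.2, ?_⟩
      by_contra hadj
      exact hy'.2 (hX0 v y hadj)
    exact hne (vandermonde_zero hx hF (hblock v s) w (Finset.mem_filter.2
      ⟨Finset.mem_univ _, hw, hne⟩))
  intro v w
  by_contra hvw
  have hadj : G.Adj v w := by
    by_contra h1
    exact hvw (hX0 v w h1)
  have hne := h.1 v w hadj
  let U : Finset V := Finset.univ.filter (fun y =>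
    (c y = c v ∧ ∃ z, c z = c w ∧ X y z ≠ 0) ∨ (c y = c w ∧ ∃ z, c z = c v ∧ X y z ≠ 0))
  have hU : ∀ y, y ∈ U ↔ (c y = c v ∧ ∃ z, c z = c w ∧ X y z ≠ 0) ∨
      (c y = c w ∧ ∃ z, c z = c v ∧ X y z ≠ 0) := fun y => by simp [U]
  obtain ⟨y, hy, hy'⟩ := h.2 (c v) (c w) hne U ⟨v, (hU v).2 (Or.inl ⟨rfl, w, rfl, hvw⟩)⟩
    (fun y hy => by
      rcases (hU y).1 hy with h1 | h1
      · exact Or.inl h1.1
      · exact Or.inr h1.1)
  rcases hy' with ⟨hc, hd⟩ | ⟨hc, hd⟩
  · rcases (hU y).1 hy with ⟨_, z, hz, hyz⟩ | ⟨h1, _⟩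
    · refine hyz (hzero y (c w) U ?_ hd z hz)
      intro t ht hyt
      refine (hU t).2 (Or.inr ⟨ht, y, hc, ?_⟩)
      rwa [hXs t y]
    · exact hne (hc.symm.trans h1)
  · rcases (hU y).1 hy with ⟨h1, _⟩ | ⟨_, z, hz, hyz⟩
    · exact hne (h1.symm.trans hc)
    · refine hyz (hzero y (c v) U ?_ hd z hz)
      intro t ht hyt
      refine (hU t).2 (Or.inl ⟨ht, y, hc, ?_⟩)
      rwa [hXs t y]

/-- A weighted acyclic colouring gives an orthogonal configuration without stress. -/
theorem rep_of_wac {m : ℕ} {G : SimpleGraph V} {c : V → Fin m} {d : Fin m → ℕ}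
    (h : WAC G c d) : Rep G.Adj (∑ r, d r) := by
  let x : V → ℝ := fun v => ((Fintype.equivFin V v : ℕ) : ℝ)
  have hx : Function.Injective x := by
    intro v w hvw
    exact (Fintype.equivFin V).injective (Fin.ext (Nat.cast_injective hvw))
  refine rep_of (E := EuclideanSpace ℝ (Σ r : Fin m, Fin (d r))) (u := vec c d x) ?_ ?_
    (sFree_vec hx h)
  · simp
  · intro v w hvw
    exact inner_vec (h.1 v w hvw)

/-- The lower bound for the complement. -/
theorem nul_of_wac {m : ℕ} {G : SimpleGraph V} {c : V → Fin m} {d : Fin m → ℕ}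
    (h : WAC G c d) : Nul Gᶜ (Fintype.card V - (∑ r, d r + 1)) := by
  obtain ⟨A, hA1, hA2, hA3, hA4⟩ := exists_matrix_of_rep G (rep_of_wac h)
  exact ⟨A, hA1, hA2, hA3, by omega⟩

end Pool.Agent.Lib.MP_23961f_co.AC
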